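import Mathlib

/-! # Spectrally arbitrary sign patterns and zero-nonzero patterns, direct sums (definitions) -/

open Polynomial Matrix

namespace Pool.Agent.Lib.MP_1020fe_co

/-- The real matrix `A` is a realization of the sign pattern `P`: every entry of `A` has the
prescribed sign. -/
def SignRealizes {ι : Type} (A : Matrix ι ι ℝ) (P : Matrix ι ι SignType) : Prop :=
  ∀ i j, SignType.sign (A i j) = P i j

/-- The sign pattern `P` is spectrally arbitrary: every monic real polynomial of degree the order
of `P` is the characteristic polynomial of some realization of `P`. -/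
def SignSAP {ι : Type} [Fintype ι] [DecidableEq ι] (P : Matrix ι ι SignType) : Prop :=
  ∀ f : ℝ[X], f.Monic → f.natDegree = Fintype.card ι →
    ∃ A : Matrix ι ι ℝ, SignRealizes A P ∧ A.charpoly = f

/-- The real matrix `A` is a realization of the zero-nonzero pattern `P` (`true` stands for a
nonzero entry `*`, `false` for a zero entry). -/
def ZNRealizes {ι : Type} (A : Matrix ι ι ℝ) (P : Matrix ι ι Bool) : Prop :=
  ∀ i j, A i j ≠ 0 ↔ P i j = true

/-- The zero-nonzero pattern `P` is spectrally arbitrary. -/
def ZNSAP {ι : Type} [Fintype ι] [DecidableEq ι] (P : Matrix ι ι Bool) : Prop :=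
  ∀ f : ℝ[X], f.Monic → f.natDegree = Fintype.card ι →
    ∃ A : Matrix ι ι ℝ, ZNRealizes A P ∧ A.charpoly = f

/-- The direct sum of two sign patterns: block diagonal, zero outside the blocks. -/
def signSum {ι κ : Type} (P : Matrix ι ι SignType) (Q : Matrix κ κ SignType) :
    Matrix (ι ⊕ κ) (ι ⊕ κ) SignType :=
  Matrix.fromBlocks P 0 0 Q

/-- The direct sum of two zero-nonzero patterns: block diagonal, zero outside the blocks. -/
def znSum {ι κ : Type} (P : Matrix ι ι Bool) (Q : Matrix κ κ Bool) :
    Matrix (ι ⊕ κ) (ι ⊕ κ) Bool :=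
  Matrix.fromBlocks P (fun _ _ => false) (fun _ _ => false) Q

/-- The zero-nonzero pattern underlying a sign pattern: nonzero signs become `*`. -/
def toZN {ι : Type} (P : Matrix ι ι SignType) : Matrix ι ι Bool :=
  fun i j => decide (P i j ≠ 0)

end Pool.Agent.Lib.MP_1020fe_co
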