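import Pool.Agent.Lib.MP_1020fe_co.Defs

/-!
# Spectrally arbitrary direct sums of two non-spectrally-arbitrary patterns

We exhibit a sign pattern `A₁` of order `5` and the sign pattern `A₂ = M₄` of order `4` such that
`A₁ ⊕ A₂` is spectrally arbitrary (as a sign pattern, hence also as a zero-nonzero pattern), while
neither `A₁` nor `A₂` is spectrally arbitrary (not even as zero-nonzero patterns).

The quintics missed by `A₁` (as a zero-nonzero pattern) are exactly the `x q(x) q(-x)` with `q` an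
irreducible quadratic of nonzero trace, the quartics missed by the zero-nonzero `M₄` are exactly the
`x² q(x)` with `q` irreducible, and every monic real polynomial of degree `9` has a factorization
avoiding both.
-/

open Polynomial Matrix

namespace Pool.Agent.Lib.MP_1020fe_co

/-! ## The two patterns -/

/-- The sign pattern of order `5`. -/
def A₁ : Matrix (Fin 5) (Fin 5) SignType :=
  !![0, 0, 1, 1, 1;
     0, -1, 1, 1, 0;
     1, 0, 1, 1, 0;
     -1, -1, 0, 0, 0;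
     1, 0, 0, 0, 0]

/-- The sign pattern `M₄` of order `4`. -/
def A₂ : Matrix (Fin 4) (Fin 4) SignType :=
  !![1, 1, -1, 0;
     -1, -1, 1, 0;
     0, 0, 0, -1;
     1, 1, 0, 0]

/-! ## Characteristic polynomials -/

theorem cp4 (a b c d e f g h k : ℝ) :
    (!![a, b, e, 0; c, d, f, 0; 0, 0, 0, g; h, k, 0, 0] : Matrix (Fin 4) (Fin 4) ℝ).charpoly
      = X ^ 4 + C (-d - a) * X ^ 3 + C (a * d - b * c) * X ^ 2 + C (-g * (h * e + k * f)) * X
        + C (g * (h * d * e - h * b * f - k * c * e + k * a * f)) := by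
  rw [Matrix.charpoly, Matrix.det_succ_row_zero]
  simp [Matrix.charmatrix, Fin.sum_univ_succ, Matrix.det_fin_three, Matrix.submatrix,
    Fin.succAbove]
  ring

theorem cp5 (a02 a03 a04 a11 a12 a13 a20 a22 a23 a30 a31 a40 : ℝ) :
    (!![0, 0, a02, a03, a04; 0, a11, a12, a13, 0; a20, 0, a22, a23, 0; a30, a31, 0, 0, 0;
        a40, 0, 0, 0, 0] : Matrix (Fin 5) (Fin 5) ℝ).charpoly
      = X ^ 5 + C (-a11 - a22) * X ^ 4
        + C (a11 * a22 - a02 * a20 - a03 * a30 - a04 * a40 - a13 * a31) * X ^ 3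
        + C (a11 * (a02 * a20) + a11 * (a03 * a30) + a11 * (a04 * a40) + a22 * (a03 * a30)
              + a22 * (a04 * a40) + a22 * (a13 * a31) - a02 * a23 * a30 - a12 * a23 * a31) * X ^ 2
        + C (- a11 * a22 * (a03 * a30) - a11 * a22 * (a04 * a40) + a11 * (a02 * a23 * a30)
              + a02 * a20 * (a13 * a31) + a04 * a40 * (a13 * a31) - a03 * a31 * a12 * a20) * X
        + C (a04 * a40 * (a12 * a23 * a31 - a22 * (a13 * a31))) := by
  rw [Matrix.charpoly, Matrix.det_succ_row_zero]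
  simp [Matrix.charmatrix, Fin.sum_univ_succ, Matrix.det_succ_row_zero, Matrix.submatrix,
    Fin.succAbove]
  ring

/-! ## Solving for the parameters -/

/-- positive solution of `S + M / S = W`. -/
lemma sum_div_solve (W M : ℝ) (hW : 0 < W) (hd : 0 ≤ W ^ 2 - 4 * M) :
    ∃ S : ℝ, 0 < S ∧ S + M / S = W := by
  refine ⟨(W + Real.sqrt (W ^ 2 - 4 * M)) / 2, ?_, ?_⟩
  · have := Real.sqrt_nonneg (W ^ 2 - 4 * M); linarith
  · have hR := Real.sq_sqrt hd
    have hR0 := Real.sqrt_nonneg (W ^ 2 - 4 * M)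
    generalize Real.sqrt (W ^ 2 - 4 * M) = R at *
    have hS : (W + R) / 2 ≠ 0 := by
      have : 0 < (W + R) / 2 := by linarith
      exact this.ne'
    have hWR : W + R ≠ 0 := by intro h; apply hS; rw [h]; simp
    have e : M = (W ^ 2 - R ^ 2) / 4 := by rw [hR]; ring
    rw [e]; field_simp; ring

/-- parameters for `M_4`. -/
lemma key4_pos (b3 b2 b1 b0 : ℝ) (h : 0 < b0) :
    ∃ a d P Q S N : ℝ, 0 < a ∧ 0 < d ∧ 0 < P ∧ 0 < Q ∧ 0 < S ∧ 0 < N ∧
      b3 = d - a ∧ b2 = N - a * d ∧ b1 = Q - P ∧ b0 = S + N * P * Q / S - d * P - a * Q := by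
  set P : ℝ := 1 + |b1| with hP
  set Q : ℝ := P + b1 with hQ
  have hP0 : 0 < P := by positivity
  have hQ1 : 1 ≤ Q := by rw [hQ, hP]; linarith [neg_abs_le b1]
  have hQ0 : 0 < Q := by linarith
  set a : ℝ := 1 + |b3| + |b2| + 2 * |b2| * P / b0 with ha
  have hx : 0 ≤ 2 * |b2| * P / b0 := by positivity
  have ha1 : 1 + |b3| + |b2| ≤ a := by rw [ha]; linarith
  set d : ℝ := a + b3 with hd
  have hd1 : 1 + |b2| ≤ d := by rw [hd]; linarith [neg_abs_le b3]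
  have hb2 : 0 ≤ |b2| := abs_nonneg _
  have hb3 : 0 ≤ |b3| := abs_nonneg _
  have hd0 : 0 < d := by linarith
  have ha0 : 0 < a := by linarith
  set N : ℝ := a * d + b2 with hN
  have hN0 : 0 < N := by
    have h1 : (1 + |b2|) * 1 ≤ a * d := by
      apply mul_le_mul <;> linarith
    rw [hN]; linarith [neg_abs_le b2]
  have hW0 : 0 < b0 + d * P + a * Q := by positivity
  have hab : 2 * |b2| * P ≤ b0 * a := by
    have : 2 * |b2| * P / b0 ≤ a := by rw [ha]; linarith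
    rwa [div_le_iff₀ h, mul_comm a b0] at this
  have hdisc : 0 ≤ (b0 + d * P + a * Q) ^ 2 - 4 * (N * P * Q) := by
    have e : (b0 + d * P + a * Q) ^ 2 - 4 * (N * P * Q)
        = b0 ^ 2 + 2 * b0 * (d * P) + 2 * Q * (b0 * a - 2 * b2 * P) + (d * P - a * Q) ^ 2 := by
      rw [hN]; ring
    have h2 : 0 ≤ b0 * a - 2 * b2 * P := by
      have : b2 * P ≤ |b2| * P := mul_le_mul_of_nonneg_right (le_abs_self b2) hP0.le
      linarith
    rw [e]; positivity
  obtain ⟨S, hS0, hS⟩ := sum_div_solve _ _ hW0 hdisc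
  exact ⟨a, d, P, Q, S, N, ha0, hd0, hP0, hQ0, hS0, hN0, by rw [hd]; ring, by rw [hN]; ring,
    by rw [hQ]; ring, by rw [hS]; ring⟩

lemma key4_zero (b3 b2 : ℝ) (h : 4 * b2 ≤ b3 ^ 2) :
    ∃ a d P Q S N : ℝ, 0 < a ∧ 0 < d ∧ 0 < P ∧ 0 < Q ∧ 0 < S ∧ 0 < N ∧
      b3 = d - a ∧ b2 = N - a * d ∧ 0 = Q - P ∧ 0 = S + N * P * Q / S - d * P - a * Q := by
  set a : ℝ := 1 + |b3| + |b2| with ha
  set d : ℝ := a + b3 with hd
  have hd1 : 1 + |b2| ≤ d := by rw [hd]; linarith [neg_abs_le b3]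
  have hb2 : 0 ≤ |b2| := abs_nonneg _
  have hb3 : 0 ≤ |b3| := abs_nonneg _
  have hd0 : 0 < d := by linarith
  have ha0 : 0 < a := by linarith
  set N : ℝ := a * d + b2 with hN
  have hN0 : 0 < N := by
    have h1 : (1 + |b2|) * 1 ≤ a * d := by
      apply mul_le_mul <;> linarith
    rw [hN]; linarith [neg_abs_le b2]
  have hdisc : 0 ≤ (a + d) ^ 2 - 4 * (N * 1 * 1) := by
    have : (a + d) ^ 2 - 4 * (N * 1 * 1) = b3 ^ 2 - 4 * b2 := by rw [hN, hd]; ring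
    rw [this]; linarith
  obtain ⟨S, hS0, hS⟩ := sum_div_solve _ _ (by linarith : 0 < a + d) hdisc
  exact ⟨a, d, 1, 1, S, N, ha0, hd0, one_pos, one_pos, hS0, hN0, by rw [hd]; ring,
    by rw [hN]; ring, by ring, by rw [hS]; ring⟩

lemma quad_eventually (A B C : ℝ) (hA : 0 < A) :
    ∀ᶠ x : ℝ in Filter.atTop, 0 < A * x ^ 2 + B * x + C := by
  filter_upwards [Filter.eventually_ge_atTop (1 + (|B| + |C|) / A)] with x hx
  have h1 : 0 ≤ (|B| + |C|) / A := by positivity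
  have hx1 : 1 ≤ x := by linarith
  have h2 : A + (|B| + |C|) ≤ A * x := by
    have : A * (1 + (|B| + |C|) / A) ≤ A * x := by
      apply mul_le_mul_of_nonneg_left hx hA.le
    have e : A * (1 + (|B| + |C|) / A) = A + (|B| + |C|) := by field_simp
    linarith
  have h3 : (A + (|B| + |C|)) * x ≤ A * x ^ 2 := by nlinarith
  have h4 : -|B| * x ≤ B * x := by
    have := neg_abs_le B
    nlinarith
  have h5 : -|C| * x ≤ C := by
    have := neg_abs_le C
    have := abs_nonneg C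
    nlinarith
  nlinarith

/-- The equation `F = 0` for the quintic pattern. -/
lemma key5_main (b4 b3 b2 b1 b0 m : ℝ) (hm : 0 < m) (hs : b2 + b4 * m + b0 / m ≠ 0) :
    ∃ α δ p q r s t : ℝ, 0 < α ∧ 0 < δ ∧ 0 < p ∧ 0 < q ∧ 0 < r ∧ 0 < s ∧ 0 < t ∧
      b4 = α - δ ∧ b3 = -(α * δ) - p + q - m + r ∧
      b2 = -(α * p) + α * q - α * m - δ * q + δ * m - δ * r + s + t ∧
      s * (b1 + α * δ * (q - m) - α * s + (p + m) * r) = p * q * t ∧
      b0 = m * (δ * r - t) := by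
  obtain ⟨β0, hβ0⟩ : ∃ β0 : ℝ, β0 = b0 / m := ⟨_, rfl⟩
  rw [← hβ0] at hs
  have hb0 : b0 = m * β0 := by rw [hβ0]; field_simp
  obtain ⟨σ, hσ⟩ : ∃ σ : ℝ, σ = b2 + b4 * m + β0 := ⟨_, rfl⟩
  rw [← hσ] at hs
  have hσ0 : 0 < |σ| := abs_pos.mpr hs
  -- choose the window
  obtain ⟨η, hη0, hη1, hη2⟩ : ∃ η : ℝ, 0 < η ∧ η ≤ 1 / 2 ∧ |b4| * η ≤ |σ| / 2 := by
    refine ⟨min (1 / 2) (|σ| / (2 * (|b4| + 1))), lt_min (by norm_num) (by positivity),
      min_le_left _ _, ?_⟩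
    have h1 : min (1 / 2) (|σ| / (2 * (|b4| + 1))) ≤ |σ| / (2 * (|b4| + 1)) := min_le_right _ _
    have h2 : |b4| * min (1 / 2) (|σ| / (2 * (|b4| + 1))) ≤ (|b4| + 1) * (|σ| / (2 * (|b4| + 1))) := by
      apply mul_le_mul _ h1 (le_min (by norm_num) (by positivity)) (by positivity)
      linarith
    have h3 : (|b4| + 1) * (|σ| / (2 * (|b4| + 1))) = |σ| / 2 := by
      field_simp
    linarith
  -- sign of the local value
  have hloc : ∀ ε : ℝ, |ε| ≤ η → |b4 * ε| ≤ |σ| / 2 := by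
    intro ε hε
    rw [abs_mul]
    exact le_trans (mul_le_mul_of_nonneg_left hε (abs_nonneg _)) hη2
  have hsgn : ∀ ε : ℝ, |ε| ≤ η → 0 < σ * (σ - b4 * ε) := by
    intro ε hε
    have h1 := hloc ε hε
    have h2 : |σ * (b4 * ε)| ≤ |σ| * (|σ| / 2) := by
      rw [abs_mul]; exact mul_le_mul_of_nonneg_left h1 (abs_nonneg _)
    have h3 : |σ| * |σ| = σ * σ := abs_mul_abs_self σ
    have h4 := le_abs_self (σ * (b4 * ε))
    have h5 : 0 < σ * σ := by rw [← h3]; positivity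
    have h6 : |σ| * (|σ| / 2) = σ * σ / 2 := by rw [← h3]; ring
    have h7 : σ * (σ - b4 * ε) = σ * σ - σ * (b4 * ε) := by ring
    rw [h7]; linarith
  obtain ⟨F, hF⟩ : ∃ F : ℝ → ℝ → ℝ, ∀ α ε, F α ε =
    (α - b4) * ((m - ε) ^ 2 + b3 * (m - ε) + b1)
      + (σ - b4 * ε) * (b1 - α * (σ - b4 * ε) + (1 + m) * (b3 + (m - ε)) + α * (α - b4) * ε)
      + (1 + ε) * β0 := ⟨_, fun _ _ => rfl⟩
  have hFp : ∀ᶠ α : ℝ in Filter.atTop, 0 < σ * F α η := by
    have := quad_eventually (σ * (σ - b4 * η) * η)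
      (σ * ((m - η) ^ 2 + b3 * (m - η) + b1) - σ * (σ - b4 * η) * (σ - b4 * η)
        - b4 * (σ * (σ - b4 * η) * η))
      (- b4 * σ * ((m - η) ^ 2 + b3 * (m - η) + b1)
        + σ * (σ - b4 * η) * (b1 + (1 + m) * (b3 + (m - η))) + σ * ((1 + η) * β0))
      (mul_pos (hsgn η (by rw [abs_of_pos hη0])) hη0)
    filter_upwards [this] with α hα
    have e : σ * F α η = σ * (σ - b4 * η) * η * α ^ 2 +
      (σ * ((m - η) ^ 2 + b3 * (m - η) + b1) - σ * (σ - b4 * η) * (σ - b4 * η)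
        - b4 * (σ * (σ - b4 * η) * η)) * α +
      (- b4 * σ * ((m - η) ^ 2 + b3 * (m - η) + b1)
        + σ * (σ - b4 * η) * (b1 + (1 + m) * (b3 + (m - η))) + σ * ((1 + η) * β0)) := by
      rw [hF]; ring
    rw [e]; exact hα
  have hFm : ∀ᶠ α : ℝ in Filter.atTop, σ * F α (-η) < 0 := by
    have := quad_eventually (σ * (σ - b4 * (-η)) * η)
      (-(σ * ((m - (-η)) ^ 2 + b3 * (m - (-η)) + b1) - σ * (σ - b4 * (-η)) * (σ - b4 * (-η))
        - b4 * (σ * (σ - b4 * (-η)) * (-η))))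
      (-(- b4 * σ * ((m - (-η)) ^ 2 + b3 * (m - (-η)) + b1)
        + σ * (σ - b4 * (-η)) * (b1 + (1 + m) * (b3 + (m - (-η)))) + σ * ((1 + (-η)) * β0)))
      (mul_pos (hsgn (-η) (by rw [abs_neg, abs_of_pos hη0])) hη0)
    filter_upwards [this] with α hα
    have e : σ * F α (-η) = -(σ * (σ - b4 * (-η)) * η * α ^ 2 +
      (-(σ * ((m - (-η)) ^ 2 + b3 * (m - (-η)) + b1) - σ * (σ - b4 * (-η)) * (σ - b4 * (-η))
        - b4 * (σ * (σ - b4 * (-η)) * (-η)))) * α +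
      (-(- b4 * σ * ((m - (-η)) ^ 2 + b3 * (m - (-η)) + b1)
        + σ * (σ - b4 * (-η)) * (b1 + (1 + m) * (b3 + (m - (-η)))) + σ * ((1 + (-η)) * β0)))) := by
      rw [hF]; ring
    rw [e]; linarith
  have hr : ∀ᶠ α : ℝ in Filter.atTop, 0 < 1 * α ^ 2 + (-b4) * α + (b3 - 1) :=
    quad_eventually _ _ _ one_pos
  obtain ⟨α, h1, h2, h3, h4, h5, h6⟩ :=
    (hFp.and (hFm.and (hr.and ((Filter.eventually_gt_atTop (0 : ℝ)).and
      ((Filter.eventually_gt_atTop (b4 + 2 * |β0|)).and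
        (Filter.eventually_gt_atTop (b4 + (|σ| + |σ|)))))))).exists
  -- intermediate value theorem
  have hcont : Continuous (fun ε => σ * F α ε) := by
    have : (fun ε => σ * F α ε) = fun ε => σ * ((α - b4) * ((m - ε) ^ 2 + b3 * (m - ε) + b1)
      + (σ - b4 * ε) * (b1 - α * (σ - b4 * ε) + (1 + m) * (b3 + (m - ε)) + α * (α - b4) * ε)
      + (1 + ε) * β0) := by funext ε; rw [hF]
    rw [this]; fun_prop
  obtain ⟨ε, hεm, hε0⟩ : (0 : ℝ) ∈ (fun ε => σ * F α ε) '' Set.Icc (-η) η :=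
    intermediate_value_Icc (by linarith) hcont.continuousOn ⟨h2.le, h1.le⟩
  have hF0 : F α ε = 0 := by
    rcases mul_eq_zero.mp hε0 with h | h
    · exact absurd h hs
    · exact h
  rw [hF] at hF0
  have hεabs : |ε| ≤ η := abs_le.mpr ⟨hεm.1, hεm.2⟩
  have hεle : |ε| ≤ 1 / 2 := le_trans hεabs hη1
  have hε1 := (abs_le.mp hεle).1
  have hε2 := (abs_le.mp hεle).2
  have hbe := abs_le.mp (hloc ε hεabs)
  clear hF hFp hFm hcont hε0 h1 h2 hr hsgn hloc
  have hβa := abs_nonneg β0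
  obtain ⟨δ, hδ⟩ : ∃ δ : ℝ, δ = α - b4 := ⟨_, rfl⟩
  have hb4 : b4 = α - δ := by rw [hδ]; ring
  have hδ1 : 2 * |β0| < δ := by rw [hδ]; linarith
  have hδ2 : |σ| + |σ| < δ := by rw [hδ]; linarith
  have hδ0 : 0 < δ := by linarith
  have hrr : 1 / 2 ≤ b3 + α * δ + (m - ε) := by
    have : α * δ = α ^ 2 - b4 * α := by rw [hδ]; ring
    rw [this]; linarith
  have hr0 : 0 < b3 + α * δ + (m - ε) := by linarith
  have hs0 : 0 < δ + (σ - b4 * ε) := by
    have := neg_abs_le σ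
    linarith [hbe.2]
  have ht0 : 0 < δ * (b3 + α * δ + (m - ε)) - β0 := by
    have h1 : δ * (1 / 2) ≤ δ * (b3 + α * δ + (m - ε)) := mul_le_mul_of_nonneg_left hrr hδ0.le
    have := le_abs_self β0
    linarith
  refine ⟨α, δ, 1, 1 + ε, b3 + α * δ + (m - ε), δ + (σ - b4 * ε),
    δ * (b3 + α * δ + (m - ε)) - β0, h4, hδ0, one_pos, by linarith, hr0, hs0, ht0, hb4, by ring,
    ?_, ?_, ?_⟩
  · rw [hσ, hb4]; ring
  · rw [hδ] at *
    linear_combination hF0
  · rw [hb0]; ring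


lemma key5 (b4 b3 b2 b1 b0 : ℝ) (h : b4 ≠ 0 ∨ b2 ≠ 0 ∨ b0 ≠ 0 ∨ 4 * b1 ≤ b3 ^ 2) :
    ∃ α δ p q m r s t : ℝ, 0 < α ∧ 0 < δ ∧ 0 < p ∧ 0 < q ∧ 0 < m ∧ 0 < r ∧ 0 < s ∧ 0 < t ∧
      b4 = α - δ ∧ b3 = -(α * δ) - p + q - m + r ∧
      b2 = -(α * p) + α * q - α * m - δ * q + δ * m - δ * r + s + t ∧
      s * (b1 + α * δ * (q - m) - α * s + (p + m) * r) = p * q * t ∧
      b0 = m * (δ * r - t) := by
  by_cases hz : b4 = 0 ∧ b2 = 0 ∧ b0 = 0
  · obtain ⟨rfl, rfl, rfl⟩ := hz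
    have hd : 0 ≤ b3 ^ 2 - 4 * b1 := by
      rcases h with h | h | h | h
      · exact absurd rfl h
      · exact absurd rfl h
      · exact absurd rfl h
      · linarith
    obtain ⟨y, hy⟩ : ∃ y : ℝ, y ^ 2 + b3 * y + b1 = 0 := by
      refine ⟨(-b3 + Real.sqrt (b3 ^ 2 - 4 * b1)) / 2, ?_⟩
      have hR := Real.sq_sqrt hd
      linear_combination (1 / 4) * hR
    have hy1 := le_abs_self y
    have hy2 := neg_abs_le y
    have hb1 := neg_abs_le b3
    have hy0 := abs_nonneg y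
    have hb0 := abs_nonneg b3
    obtain ⟨α, hα⟩ : ∃ α : ℝ, α = 1 + |b3| + |y| := ⟨_, rfl⟩
    have hα1 : 1 ≤ α := by rw [hα]; linarith
    have hαα : α ≤ α * α := by nlinarith
    have hr0 : 0 < b3 + α * α + y := by linarith
    refine ⟨α, α, 1, 2 + |y| - y, 1 + |y|, b3 + α * α + y, α, α * (b3 + α * α + y),
      by linarith, by linarith, one_pos, by linarith, by linarith, hr0, by linarith,
      mul_pos (by linarith) hr0, by ring, by ring, by ring, ?_, by ring⟩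
    linear_combination α * hy
  · obtain ⟨m, hm, hne⟩ : ∃ m : ℝ, 0 < m ∧ b2 + b4 * m + b0 / m ≠ 0 := by
      by_contra hcon
      push Not at hcon
      have h1 := hcon 1 one_pos
      have h2 := hcon 2 two_pos
      have h3 := hcon 3 three_pos
      apply hz
      refine ⟨by linarith, by linarith, by linarith⟩
    obtain ⟨α, δ, p, q, r, s, t, h1, h2, h3, h4, h5, h6, h7, h8⟩ :=
      key5_main b4 b3 b2 b1 b0 m hm hne
    exact ⟨α, δ, p, q, m, r, s, t, h1, h2, h3, h4, hm, h5, h6, h7, h8⟩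

/-! ## Realizations of the two patterns -/

/-- `M₄` realizes every quartic with `b₀ > 0`, and every `x² (x² + b₃ x + b₂)` with real roots. -/
lemma realize4 (b3 b2 b1 b0 : ℝ) (h : 0 < b0 ∨ (b1 = 0 ∧ b0 = 0 ∧ 4 * b2 ≤ b3 ^ 2)) :
    ∃ A : Matrix (Fin 4) (Fin 4) ℝ, SignRealizes A A₂ ∧
      A.charpoly = X ^ 4 + C b3 * X ^ 3 + C b2 * X ^ 2 + C b1 * X + C b0 := by
  obtain ⟨a, d, P, Q, S, N, ha, hd, hP, hQ, hS, hN, e3, e2, e1, e0⟩ :
      ∃ a d P Q S N : ℝ, 0 < a ∧ 0 < d ∧ 0 < P ∧ 0 < Q ∧ 0 < S ∧ 0 < N ∧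
      b3 = d - a ∧ b2 = N - a * d ∧ b1 = Q - P ∧ b0 = S + N * P * Q / S - d * P - a * Q := by
    rcases h with h | ⟨h1, h0, h2⟩
    · exact key4_pos b3 b2 b1 b0 h
    · subst h1 h0
      exact key4_zero b3 b2 h2
  refine ⟨!![a, S / Q, -P, 0; -(N * Q / S), -d, Q, 0; 0, 0, 0, -1; 1, 1, 0, 0], ?_, ?_⟩
  · intro i j
    have hSQ : 0 < S / Q := by positivity
    have hNQ : -(N * Q / S) < 0 := by
      have : 0 < N * Q / S := by positivity
      linarith
    have hd' : -d < 0 := by linarith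
    have hP' : -P < 0 := by linarith
    fin_cases i <;> fin_cases j <;>
      simp [A₂, sign_pos, sign_neg, ha, hSQ, hNQ, hd', hP', hQ]
  · rw [cp4, e3, e2, e1, e0]
    have hS' : S ≠ 0 := hS.ne'
    have hQ' : Q ≠ 0 := hQ.ne'
    congr 1
    · congr 1
      · congr 1
        · congr 3; ring
        · congr 2; field_simp; ring
      · congr 2; ring
    · congr 1; field_simp; ring

/-- `A₁` realizes every quintic that is not of the form `x q(x) q(-x)`. -/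
lemma realize5 (b4 b3 b2 b1 b0 : ℝ) (h : b4 ≠ 0 ∨ b2 ≠ 0 ∨ b0 ≠ 0 ∨ 4 * b1 ≤ b3 ^ 2) :
    ∃ A : Matrix (Fin 5) (Fin 5) ℝ, SignRealizes A A₁ ∧
      A.charpoly = X ^ 5 + C b4 * X ^ 4 + C b3 * X ^ 3 + C b2 * X ^ 2 + C b1 * X + C b0 := by
  obtain ⟨α, δ, p, q, m, r, s, t, hα, hδ, hp, hq, hm, hr, hs, ht, e4, e3, e2, e1, e0⟩ :=
    key5 b4 b3 b2 b1 b0 h
  refine ⟨!![0, 0, p, q, m; 0, -α, t * p / s, r, 0; 1, 0, δ, s / p, 0; -1, -1, 0, 0, 0;
    1, 0, 0, 0, 0], ?_, ?_⟩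
  · intro i j
    have h1 : 0 < t * p / s := by positivity
    have h2 : 0 < s / p := by positivity
    have h3 : -α < 0 := by linarith
    fin_cases i <;> fin_cases j <;>
      simp [A₁, sign_pos, sign_neg, hp, hq, hm, h1, h2, h3, hr, hδ]
  · have hs' : s ≠ 0 := hs.ne'
    have hp' : p ≠ 0 := hp.ne'
    have e1' : b1 = p * q * t / s - (α * δ * (q - m) - α * s + (p + m) * r) := by
      rw [eq_sub_iff_add_eq, eq_div_iff hs', ← e1]; ring
    rw [cp5, e4, e3, e2, e1', e0]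
    congr 1
    · congr 1
      · congr 1
        · congr 1
          · congr 3; ring
          · congr 2; ring
        · congr 2; field_simp; ring
      · congr 2; field_simp; ring
    · congr 1; field_simp; ring

/-! ## The two patterns are not spectrally arbitrary -/

lemma coeffs5 (c4 c3 c2 c1 c0 : ℝ)
    (h : (X ^ 5 + C c4 * X ^ 4 + C c3 * X ^ 3 + C c2 * X ^ 2 + C c1 * X + C c0 : ℝ[X])
      = X ^ 5 + X) : c4 = 0 ∧ c3 = 0 ∧ c2 = 0 ∧ c1 = 1 ∧ c0 = 0 := by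
  have h4 := congrArg (fun f => coeff f 4) h
  have h3 := congrArg (fun f => coeff f 3) h
  have h2 := congrArg (fun f => coeff f 2) h
  have h1 := congrArg (fun f => coeff f 1) h
  have h0 := congrArg (fun f => coeff f 0) h
  simp [coeff_X, coeff_C, coeff_X_pow] at h4 h3 h2 h1 h0
  exact ⟨h4, h3, h2, h1, h0⟩

lemma coeffs4 (c3 c2 c1 c0 : ℝ)
    (h : (X ^ 4 + C c3 * X ^ 3 + C c2 * X ^ 2 + C c1 * X + C c0 : ℝ[X])
      = X ^ 4 + X ^ 2) : c3 = 0 ∧ c2 = 1 ∧ c1 = 0 ∧ c0 = 0 := by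
  have h3 := congrArg (fun f => coeff f 3) h
  have h2 := congrArg (fun f => coeff f 2) h
  have h1 := congrArg (fun f => coeff f 1) h
  have h0 := congrArg (fun f => coeff f 0) h
  simp [coeff_X, coeff_C, coeff_X_pow] at h3 h2 h1 h0
  exact ⟨h3, h2, h1, h0⟩

lemma no5 (a02 a03 a04 a11 a12 a13 a20 a22 a23 a30 a31 a40 : ℝ)
    (n02 : a02 ≠ 0) (n20 : a20 ≠ 0) (n04 : a04 ≠ 0) (n40 : a40 ≠ 0) (n22 : a22 ≠ 0)
    (h4 : -a11 - a22 = 0)
    (h3 : a11 * a22 - a02 * a20 - a03 * a30 - a04 * a40 - a13 * a31 = 0)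
    (h2 : a11 * (a02 * a20) + a11 * (a03 * a30) + a11 * (a04 * a40) + a22 * (a03 * a30)
              + a22 * (a04 * a40) + a22 * (a13 * a31) - a02 * a23 * a30 - a12 * a23 * a31 = 0)
    (h1 : - a11 * a22 * (a03 * a30) - a11 * a22 * (a04 * a40) + a11 * (a02 * a23 * a30)
              + a02 * a20 * (a13 * a31) + a04 * a40 * (a13 * a31) - a03 * a31 * a12 * a20 = 1)
    (h0 : a04 * a40 * (a12 * a23 * a31 - a22 * (a13 * a31)) = 0) : False := by
  have e11 : a11 = -a22 := by linarith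
  subst e11
  have e0 : a12 * a23 * a31 = a22 * (a13 * a31) := by
    rcases mul_eq_zero.mp h0 with h | h
    · exact absurd h (mul_ne_zero n04 n40)
    · linarith
  have e2 : a02 * a23 * a30 = -(a22 * (a02 * a20)) := by linear_combination -h2 - e0
  have e1 : a03 * a31 * a12 * a20 = -(a03 * a30 * (a13 * a31)) := by
    have key : a22 * (a02 * a20) * (a03 * a31 * a12 * a20 + a03 * a30 * (a13 * a31)) = 0 := by
      linear_combination (a03 * a31 * a12 * a20) * e2 - (a02 * a20 * a03 * a30) * e0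
    rcases mul_eq_zero.mp key with h | h
    · exact absurd h (mul_ne_zero n22 (mul_ne_zero n02 n20))
    · linarith
  have hfin : (a22 ^ 2 + a13 * a31) ^ 2 + 1 = 0 := by
    linear_combination (-1 : ℝ) * h1 + (a22 ^ 2 + a13 * a31) * (-h3) - a22 * e2 - e1
  nlinarith [sq_nonneg (a22 ^ 2 + a13 * a31)]

lemma no4 (a b c d e f g h k : ℝ) (ne : e ≠ 0) (ng : g ≠ 0) (nk : k ≠ 0)
    (h3 : -d - a = 0) (h2 : a * d - b * c = 1) (h1 : -g * (h * e + k * f) = 0)
    (h0 : g * (h * d * e - h * b * f - k * c * e + k * a * f) = 0) : False := by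
  have e1 : h * e + k * f = 0 := by
    rcases mul_eq_zero.mp h1 with h' | h'
    · exact absurd h' (neg_ne_zero.mpr ng)
    · exact h'
  have e0 : h * d * e - h * b * f - k * c * e + k * a * f = 0 := by
    rcases mul_eq_zero.mp h0 with h' | h'
    · exact absurd h' ng
    · exact h'
  have e3 : a = -d := by linarith
  subst e3
  have key : k * (b * f ^ 2 - 2 * d * f * e - c * e ^ 2) = 0 := by
    linear_combination e * e0 + (b * f - d * e) * e1
  have q : b * f ^ 2 - 2 * d * f * e - c * e ^ 2 = 0 := by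
    rcases mul_eq_zero.mp key with h' | h'
    · exact absurd h' nk
    · exact h'
  have fin : (b * f - d * e) ^ 2 + e ^ 2 = 0 := by
    linear_combination b * q - e ^ 2 * h2
  have : 0 < e ^ 2 := by positivity
  nlinarith [sq_nonneg (b * f - d * e)]

/-- No real matrix with the zero-nonzero pattern of `A₁` has characteristic polynomial
`x⁵ + x`. -/
lemma not_znsap_A₁ : ¬ ZNSAP (toZN A₁) := by
  intro h
  obtain ⟨A, hA, hf⟩ := h (X ^ 5 + X) (by monicity!) (by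
    rw [Fintype.card_fin]; compute_degree!)
  have hz : ∀ i j, A₁ i j = 0 → A i j = 0 := by
    intro i j hij
    by_contra hne
    have := (hA i j).mp hne
    simp [toZN, hij] at this
  have hn : ∀ i j, A₁ i j ≠ 0 → A i j ≠ 0 := by
    intro i j hij
    exact (hA i j).mpr (by simp [toZN, hij])
  have hform : A = !![0, 0, A 0 2, A 0 3, A 0 4; 0, A 1 1, A 1 2, A 1 3, 0;
      A 2 0, 0, A 2 2, A 2 3, 0; A 3 0, A 3 1, 0, 0, 0; A 4 0, 0, 0, 0, 0] := by
    ext i j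
    fin_cases i <;> fin_cases j <;> first | rfl | exact hz _ _ rfl
  rw [hform, cp5] at hf
  obtain ⟨h4, h3, h2, h1, h0⟩ := coeffs5 _ _ _ _ _ hf
  exact no5 _ _ _ _ _ _ _ _ _ _ _ _ (hn 0 2 (by decide)) (hn 2 0 (by decide))
    (hn 0 4 (by decide)) (hn 4 0 (by decide)) (hn 2 2 (by decide)) h4 h3 h2 h1 h0

/-- No real matrix with the zero-nonzero pattern of `M₄` has characteristic polynomial
`x⁴ + x²`. -/
lemma not_znsap_A₂ : ¬ ZNSAP (toZN A₂) := by
  intro h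
  obtain ⟨A, hA, hf⟩ := h (X ^ 4 + X ^ 2) (by monicity!) (by
    rw [Fintype.card_fin]; compute_degree!)
  have hz : ∀ i j, A₂ i j = 0 → A i j = 0 := by
    intro i j hij
    by_contra hne
    have := (hA i j).mp hne
    simp [toZN, hij] at this
  have hn : ∀ i j, A₂ i j ≠ 0 → A i j ≠ 0 := by
    intro i j hij
    exact (hA i j).mpr (by simp [toZN, hij])
  have hform : A = !![A 0 0, A 0 1, A 0 2, 0; A 1 0, A 1 1, A 1 2, 0; 0, 0, 0, A 2 3;
      A 3 0, A 3 1, 0, 0] := by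
    ext i j
    fin_cases i <;> fin_cases j <;> first | rfl | exact hz _ _ rfl
  rw [hform, cp4] at hf
  obtain ⟨h3, h2, h1, h0⟩ := coeffs4 _ _ _ _ hf
  exact no4 _ _ _ _ _ _ _ _ _ (hn 0 2 (by decide)) (hn 2 3 (by decide)) (hn 3 1 (by decide))
    h3 h2 h1 h0

/-! ## Relations between the two notions -/

/-- A realization of a sign pattern is a realization of its zero-nonzero pattern. -/
lemma SignRealizes.toZN {ι : Type} {A : Matrix ι ι ℝ} {P : Matrix ι ι SignType}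
    (h : SignRealizes A P) : ZNRealizes A (toZN P) := by
  intro i j
  have hij := h i j
  unfold Pool.Agent.Lib.MP_1020fe_co.toZN
  rw [decide_eq_true_iff, ← hij, Ne, Ne, sign_eq_zero_iff]

lemma SignSAP.znsap {ι : Type} [Fintype ι] [DecidableEq ι] {P : Matrix ι ι SignType}
    (h : SignSAP P) : ZNSAP (toZN P) := by
  intro f hf hd
  obtain ⟨A, hA, hc⟩ := h f hf hd
  exact ⟨A, hA.toZN, hc⟩

lemma toZN_signSum {ι κ : Type} (P : Matrix ι ι SignType) (Q : Matrix κ κ SignType) :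
    toZN (signSum P Q) = znSum (toZN P) (toZN Q) := by
  ext i j
  rcases i with i | i <;> rcases j with j | j
  · rfl
  · simp [toZN, signSum, znSum, Matrix.fromBlocks]
  · simp [toZN, signSum, znSum, Matrix.fromBlocks]
  · rfl

/-! ## Splitting polynomials of degree nine -/

/-- The monic quadratic `x² + b x + c`. -/
noncomputable def Qd (b c : ℝ) : ℝ[X] := X ^ 2 + C b * X + C c

lemma fac9 (f : ℝ[X]) (hm : f.Monic) (hd : f.natDegree = 9) :
    ∃ (r : ℝ) (β γ : Fin 4 → ℝ), f = (X - C r) * ∏ i, Qd (β i) (γ i) := by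
  have h9 : IsMonicOfDegree f (7 + 2) := ⟨hd, hm⟩
  obtain ⟨f1, g1, hf1, hg1, e1⟩ := h9.eq_isMonicOfDegree_two_mul_isMonicOfDegree
  obtain ⟨f2, g2, hf2, hg2, e2⟩ :=
    (show IsMonicOfDegree g1 (5 + 2) from hg1).eq_isMonicOfDegree_two_mul_isMonicOfDegree
  obtain ⟨f3, g3, hf3, hg3, e3⟩ :=
    (show IsMonicOfDegree g2 (3 + 2) from hg2).eq_isMonicOfDegree_two_mul_isMonicOfDegree
  obtain ⟨f4, g4, hf4, hg4, e4⟩ :=
    (show IsMonicOfDegree g3 (1 + 2) from hg3).eq_isMonicOfDegree_two_mul_isMonicOfDegree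
  obtain ⟨r, hr⟩ := isMonicOfDegree_one_iff.mp hg4
  obtain ⟨β1, γ1, h1⟩ := isMonicOfDegree_two_iff.mp hf1
  obtain ⟨β2, γ2, h2⟩ := isMonicOfDegree_two_iff.mp hf2
  obtain ⟨β3, γ3, h3⟩ := isMonicOfDegree_two_iff.mp hf3
  obtain ⟨β4, γ4, h4⟩ := isMonicOfDegree_two_iff.mp hf4
  refine ⟨-r, ![β1, β2, β3, β4], ![γ1, γ2, γ3, γ4], ?_⟩
  rw [e1, e2, e3, e4, hr, h1, h2, h3, h4, Fin.prod_univ_four]
  simp only [Qd, Matrix.cons_val_zero, Matrix.cons_val_one, Matrix.cons_val, map_neg]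
  ring

lemma real_roots (β γ : ℝ) (h : 4 * γ ≤ β ^ 2) (hne : ¬ (β = 0 ∧ γ = 0)) :
    ∃ s s' : ℝ, s ≠ 0 ∧ β = -(s + s') ∧ γ = s * s' := by
  have hd : 0 ≤ β ^ 2 - 4 * γ := by linarith
  have hR := Real.sq_sqrt hd
  generalize Real.sqrt (β ^ 2 - 4 * γ) = R at hR
  by_cases h1 : (-β + R) / 2 = 0
  · refine ⟨(-β - R) / 2, (-β + R) / 2, ?_, by ring, by linear_combination (1 / 4) * hR⟩
    intro h2
    apply hne
    have : β = 0 := by linarith
    have : R = 0 := by linarith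
    subst this
    refine ⟨by assumption, ?_⟩
    have hb : β = 0 := by assumption
    rw [hb] at hR
    linarith
  · exact ⟨(-β + R) / 2, (-β - R) / 2, h1, by ring, by linear_combination (1 / 4) * hR⟩

lemma fac9' (f : ℝ[X]) (hm : f.Monic) (hd : f.natDegree = 9) :
    ∃ (r : ℝ) (β γ : Fin 4 → ℝ), f = (X - C r) * ∏ i, Qd (β i) (γ i) ∧
      (r ≠ 0 ∨ ∀ i, (β i = 0 ∧ γ i = 0) ∨ (β i) ^ 2 < 4 * γ i) := by
  obtain ⟨r, β, γ, hf⟩ := fac9 f hm hd
  by_cases hr : r ≠ 0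
  · exact ⟨r, β, γ, hf, Or.inl hr⟩
  push Not at hr
  subst hr
  by_cases H : ∀ i, (β i = 0 ∧ γ i = 0) ∨ (β i) ^ 2 < 4 * γ i
  · exact ⟨0, β, γ, hf, Or.inr H⟩
  push Not at H
  obtain ⟨i, h1, h2⟩ := H
  obtain ⟨s, s', hs, hβ, hγ⟩ := real_roots (β i) (γ i) h2 (by
    rintro ⟨h3, h4⟩; exact h1 h3 h4)
  refine ⟨s, Function.update β i (-s'), Function.update γ i 0, ?_, Or.inl hs⟩
  rw [hf, ← Finset.mul_prod_erase Finset.univ (fun j => Qd (β j) (γ j)) (Finset.mem_univ i),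
    ← Finset.mul_prod_erase Finset.univ
      (fun j => Qd (Function.update β i (-s') j) (Function.update γ i 0 j)) (Finset.mem_univ i)]
  have hrest : ∏ j ∈ Finset.univ.erase i, Qd (Function.update β i (-s') j) (Function.update γ i 0 j)
      = ∏ j ∈ Finset.univ.erase i, Qd (β j) (γ j) := by
    apply Finset.prod_congr rfl
    intro j hj
    have hji : j ≠ i := Finset.ne_of_mem_erase hj
    rw [Function.update_of_ne hji, Function.update_of_ne hji]
  rw [hrest]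
  simp only [Function.update_self]
  rw [← mul_assoc, ← mul_assoc, hβ, hγ]
  congr 1
  simp only [Qd, map_neg, map_add, map_mul, map_zero]
  ring

/-- The product of two quadratics is realized by `M₄`. -/
def good4 (γ γ' : ℝ) : Prop := 0 < γ * γ' ∨ (γ = 0 ∧ γ' = 0)

/-- The coefficients of `(x - r) (x² + β x + γ) (x² + β' x + γ')` avoid the bad quintics. -/
def good5 (r β γ β' γ' : ℝ) : Prop :=
  β + β' - r ≠ 0 ∨ β * γ' + β' * γ - r * (γ + γ' + β * β') ≠ 0 ∨ -(r * (γ * γ')) ≠ 0 ∨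
    4 * (γ * γ' - r * (β * γ' + β' * γ)) ≤ (γ + γ' + β * β' - r * (β + β')) ^ 2

lemma good5_of_ne (r β γ β' γ' : ℝ) (hr : r ≠ 0) : good5 r β γ β' γ' := by
  by_contra hcon
  unfold good5 at hcon
  push Not at hcon
  obtain ⟨h4, h2, h0, hd⟩ := hcon
  have hev : r ^ 5 + (β + β' - r) * r ^ 4 + (γ + γ' + β * β' - r * (β + β')) * r ^ 3
      + (β * γ' + β' * γ - r * (γ + γ' + β * β')) * r ^ 2
      + (γ * γ' - r * (β * γ' + β' * γ)) * r + -(r * (γ * γ')) = 0 := by ring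
  rw [h4, h2, h0] at hev
  have h5 : r * (r ^ 4 + (γ + γ' + β * β' - r * (β + β')) * r ^ 2
      + (γ * γ' - r * (β * γ' + β' * γ))) = 0 := by linear_combination hev
  rcases mul_eq_zero.mp h5 with h | h
  · exact hr h
  · nlinarith [sq_nonneg (2 * r ^ 2 + (γ + γ' + β * β' - r * (β + β')))]

lemma good5_zero_left (β' γ' : ℝ) : good5 0 0 0 β' γ' := by
  unfold good5
  right; right; right
  nlinarith [sq_nonneg γ']

lemma good5_zero_right (β' γ' : ℝ) : good5 0 β' γ' 0 0 := by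
  unfold good5
  right; right; right
  nlinarith [sq_nonneg γ']

/-- if a pair is bad then `β' = -β ≠ 0`. -/
lemma bad5 (β γ β' γ' : ℝ) (h : ¬ good5 0 β γ β' γ') : β' = -β ∧ β ≠ 0 := by
  unfold good5 at h
  push Not at h
  obtain ⟨h4, h2, h0, hd⟩ := h
  have hb : β' = -β := by linarith
  refine ⟨hb, ?_⟩
  rintro rfl
  have : β' = 0 := by linarith
  subst this
  nlinarith [sq_nonneg (γ - γ')]

lemma perm_exists : ∀ i j : Fin 4, i ≠ j → ∃ σ : Equiv.Perm (Fin 4), σ 0 = i ∧ σ 1 = j := by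
  decide

lemma perm_bool : ∀ T : Fin 4 → Bool, (∃ i, T i = true) →
    ∃ σ : Equiv.Perm (Fin 4), T (σ 2) = true ∧ T (σ 0) = T (σ 1) := by
  decide

lemma pairing (r : ℝ) (β γ : Fin 4 → ℝ)
    (h : r ≠ 0 ∨ ∀ i, (β i = 0 ∧ γ i = 0) ∨ (β i) ^ 2 < 4 * γ i) :
    ∃ σ : Equiv.Perm (Fin 4), good4 (γ (σ 0)) (γ (σ 1)) ∧
      good5 r (β (σ 2)) (γ (σ 2)) (β (σ 3)) (γ (σ 3)) := by
  by_cases hr : r ≠ 0
  · obtain ⟨i, j, hij, hs⟩ := Fintype.exists_ne_map_eq_of_card_lt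
      (fun i : Fin 4 => SignType.sign (γ i)) (by simp [Fintype.card_fin]; decide)
    obtain ⟨σ, h0, h1⟩ := perm_exists i j hij
    refine ⟨σ, ?_, good5_of_ne _ _ _ _ _ hr⟩
    rw [h0, h1]
    rcases lt_trichotomy (γ i) 0 with hi | hi | hi
    · rw [sign_neg hi] at hs
      exact Or.inl (mul_pos_of_neg_of_neg hi (sign_eq_neg_one_iff.mp hs.symm))
    · rw [hi, sign_zero] at hs
      exact Or.inr ⟨hi, sign_eq_zero_iff.mp hs.symm⟩
    · rw [sign_pos hi] at hs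
      exact Or.inl (mul_pos hi (sign_eq_one_iff.mp hs.symm))
  · push Not at hr
    subst hr
    have H : ∀ i, (β i = 0 ∧ γ i = 0) ∨ (β i) ^ 2 < 4 * γ i := by
      rcases h with h | h
      · exact absurd rfl h
      · exact h
    classical
    by_cases hz : ∃ i, (β i = 0 ∧ γ i = 0)
    · obtain ⟨σ, h2, h01⟩ := perm_bool (fun i => decide (β i = 0 ∧ γ i = 0)) (by
        obtain ⟨i, hi⟩ := hz
        exact ⟨i, by simp [hi.1, hi.2]⟩)
      have h2' : β (σ 2) = 0 ∧ γ (σ 2) = 0 := by simpa using h2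
      have h01' : (β (σ 0) = 0 ∧ γ (σ 0) = 0) ↔ (β (σ 1) = 0 ∧ γ (σ 1) = 0) :=
        decide_eq_decide.mp h01
      refine ⟨σ, ?_, ?_⟩
      · by_cases h0 : β (σ 0) = 0 ∧ γ (σ 0) = 0
        · exact Or.inr ⟨h0.2, (h01'.mp h0).2⟩
        · have h1 : ¬ (β (σ 1) = 0 ∧ γ (σ 1) = 0) := fun h => h0 (h01'.mpr h)
          have p0 : 0 < γ (σ 0) := by
            have := (H (σ 0)).resolve_left h0
            nlinarith [sq_nonneg (β (σ 0))]
          have p1 : 0 < γ (σ 1) := by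
            have := (H (σ 1)).resolve_left h1
            nlinarith [sq_nonneg (β (σ 1))]
          exact Or.inl (mul_pos p0 p1)
      · rw [h2'.1, h2'.2]
        exact good5_zero_left _ _
    · push Not at hz
      have hpos : ∀ i, 0 < γ i := by
        intro i
        have := (H i).resolve_left (fun h => hz i h.1 h.2)
        nlinarith [sq_nonneg (β i)]
      by_cases h12 : good5 0 (β 0) (γ 0) (β 1) (γ 1)
      · obtain ⟨σ, hσ⟩ : ∃ σ : Equiv.Perm (Fin 4), σ 2 = 0 ∧ σ 3 = 1 := by decide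
        exact ⟨σ, Or.inl (mul_pos (hpos _) (hpos _)), by rw [hσ.1, hσ.2]; exact h12⟩
      by_cases h13 : good5 0 (β 0) (γ 0) (β 2) (γ 2)
      · obtain ⟨σ, hσ⟩ : ∃ σ : Equiv.Perm (Fin 4), σ 2 = 0 ∧ σ 3 = 2 := by decide
        exact ⟨σ, Or.inl (mul_pos (hpos _) (hpos _)), by rw [hσ.1, hσ.2]; exact h13⟩
      by_cases h23 : good5 0 (β 1) (γ 1) (β 2) (γ 2)
      · obtain ⟨σ, hσ⟩ : ∃ σ : Equiv.Perm (Fin 4), σ 2 = 1 ∧ σ 3 = 2 := by decide
        exact ⟨σ, Or.inl (mul_pos (hpos _) (hpos _)), by rw [hσ.1, hσ.2]; exact h23⟩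
      exfalso
      obtain ⟨a1, a2⟩ := bad5 _ _ _ _ h12
      obtain ⟨b1, b2⟩ := bad5 _ _ _ _ h13
      obtain ⟨c1, c2⟩ := bad5 _ _ _ _ h23
      apply c2
      linarith

/-- The direct sum of `A₁` and `M₄` is a spectrally arbitrary sign pattern. -/
lemma signSAP_sum : SignSAP (signSum A₁ A₂) := by
  intro f hm hd
  obtain ⟨r, β, γ, hf, hr⟩ := fac9' f hm (by
    rw [hd, Fintype.card_sum, Fintype.card_fin, Fintype.card_fin])
  obtain ⟨σ, h4, h5⟩ := pairing r β γ hr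
  obtain ⟨B, hB, hBc⟩ := realize4 (β (σ 0) + β (σ 1)) (γ (σ 0) + γ (σ 1) + β (σ 0) * β (σ 1))
    (β (σ 0) * γ (σ 1) + β (σ 1) * γ (σ 0)) (γ (σ 0) * γ (σ 1)) (by
      rcases h4 with h | ⟨h0, h1⟩
      · exact Or.inl h
      · right
        rw [h0, h1]
        refine ⟨by ring, by ring, ?_⟩
        nlinarith [sq_nonneg (β (σ 0) - β (σ 1))])
  obtain ⟨A, hA, hAc⟩ := realize5 _ _ _ _ _ h5
  refine ⟨Matrix.fromBlocks A 0 0 B, ?_, ?_⟩
  · intro i j
    rcases i with i | i <;> rcases j with j | j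
    · exact hA i j
    · simp [signSum]
    · simp [signSum]
    · exact hB i j
  · rw [Matrix.charpoly_fromBlocks_zero₁₂, hAc, hBc, hf,
      ← Equiv.prod_comp σ (fun i => Qd (β i) (γ i)), Fin.prod_univ_four]
    simp only [Qd, map_add, map_sub, map_mul, map_neg]
    ring

/-- The pair `A₁`, `A₂` has all the required properties. -/
theorem main :
    ∃ (P₁ : Matrix (Fin 5) (Fin 5) SignType) (P₂ : Matrix (Fin 4) (Fin 4) SignType),
      (SignSAP (signSum P₁ P₂) ∧ ¬ SignSAP P₁ ∧ ¬ SignSAP P₂) ∧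
      (ZNSAP (znSum (toZN P₁) (toZN P₂)) ∧ ¬ ZNSAP (toZN P₁) ∧ ¬ ZNSAP (toZN P₂)) := by
  refine ⟨A₁, A₂, ⟨signSAP_sum, fun h => not_znsap_A₁ h.znsap, fun h => not_znsap_A₂ h.znsap⟩,
    ?_, not_znsap_A₁, not_znsap_A₂⟩
  rw [← toZN_signSum]
  exact signSAP_sum.znsap

end Pool.Agent.Lib.MP_1020fe_co
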